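import Pool.Agent.H6.N4D.TC

/-!
# Local Fourier uniformity, end game, row WIN: from the structure on windows to the relations
-/

set_option autoImplicit false

open Finset
open Pool.Agent.H6.N4D

namespace Pool.Agent.H21.N4D.WN

theorem GD_mono {lam : ℕ → ℝ} {Q Q' : ℕ} {η e e' : ℝ} {Y n : ℕ} {θ φ : ℝ} (hQ : Q' ≤ Q)
    (he : e ≤ e') (h : GD lam Q η e Y n θ φ) : GD lam Q' η e' Y n θ φ :=
  ⟨fun q h1 h2 => h.1 q h1 (h2.trans hQ),
    h.2.trans (mul_le_mul_of_nonneg_right he (Nat.cast_nonneg _))⟩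

open Classical in
theorem exch (S : Par) (A : Finset ℕ) (F : ℕ → ℤ → Prop) (β : ℝ)
    (h : ∀ t ∈ S.I, ∑ p ∈ A, 1 / (p : ℝ) * (if F p t then 1 else 0) ≤ β) :
    ∑ p ∈ A, 1 / (p : ℝ) * S.cnt (F p) ≤ β * S.I.card := by
  have h1 : ∀ p, S.cnt (F p) = ∑ t ∈ S.I, (if F p t then (1 : ℝ) else 0) := by
    intro p
    unfold Par.cnt Par.fl
    rw [Finset.sum_boole]
  calc ∑ p ∈ A, 1 / (p : ℝ) * S.cnt (F p)
      = ∑ p ∈ A, ∑ t ∈ S.I, 1 / (p : ℝ) * (if F p t then (1 : ℝ) else 0) := by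
        refine Finset.sum_congr rfl fun p _ => ?_
        rw [h1 p, Finset.mul_sum]
    _ = ∑ t ∈ S.I, ∑ p ∈ A, 1 / (p : ℝ) * (if F p t then (1 : ℝ) else 0) := Finset.sum_comm
    _ ≤ ∑ _t ∈ S.I, β := Finset.sum_le_sum h
    _ = β * S.I.card := by rw [Finset.sum_const, nsmul_eq_mul, mul_comm]

theorem mem_Q {S : Par} {p : ℕ} (hp : p ∈ S.Q) : p.Prime ∧ p ≤ ⌊S.P ^ (2 * S.K)⌋₊ := by
  unfold Par.Q at hp
  have h := (mem_Pr (pow_nonneg Par.P_pos.le _)).1 hp
  exact ⟨h.2.2, Nat.le_floor h.2.1⟩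

open Classical in
theorem sum_erp (hMOM : T_MOM) (S : Par) (lam : ℕ → ℝ) (Q : ℕ) (η e1 : ℝ) (t : ℤ) (θ φ : ℝ)
    (hW : ∑ p ∈ S.Q, 1 / (p : ℝ) ≤ 2 * S.K)
    (hGD : GD lam Q η e1 ⌊S.rho * S.n t⌋₊ (S.n t) θ φ) (hR : S.P ^ (100 * S.K) ≤ S.rho * S.x t)
    (hn : (S.n t : ℝ) ≤ S.x t) (hP : 1 ≤ S.P) (hr : 0 < S.rho) (he1 : 0 ≤ e1) (b : ℝ)
    (hb : 0 ≤ b) (hbC : e1 * (4 * (S.K : ℝ) ^ 2 + 2 * S.K + 2) ≤ b ^ 2) :
    ∑ p ∈ S.Q, (erp S lam t p θ φ : ℝ) ≤ b * (S.rho * S.x t) := by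
  set Yt := ⌊S.rho * S.n t⌋₊ with hYt
  set M := S.rho * S.x t with hM
  set E := (Ioc (S.n t) (S.n t + Yt)).filter fun m : ℕ =>
    lam m * Real.cos (2 * Real.pi * (θ * ((m : ℝ) - S.n t) + φ)) ≤ 0 with hE
  have hM0 : 0 ≤ M := mul_nonneg hr.le (Par.x_pos t).le
  have hYM : (Yt : ℝ) ≤ M := by
    refine (Nat.floor_le (mul_nonneg hr.le (Nat.cast_nonneg _))).trans ?_
    exact mul_le_mul_of_nonneg_left hn hr.le
  have hEc : (E.card : ℝ) ≤ e1 * M := by
    have h1 : (E.card : ℝ) ≤ e1 * Yt := hGD.2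
    exact h1.trans (mul_le_mul_of_nonneg_left hYM he1)
  have h1 : ∀ p, erp S lam t p θ φ = (E.filter fun m => p ∣ m).card := by
    intro p
    unfold erp
    rw [hE, Finset.filter_filter]
    congr 1
    apply Finset.filter_congr
    intro m _
    exact and_comm
  have h2 := hMOM S.Q E ⌊S.P ^ (2 * S.K)⌋₊ Yt (S.n t) (fun p hp => mem_Q hp)
    (Finset.filter_subset _ _)
  have hR2 : ((⌊S.P ^ (2 * S.K)⌋₊ : ℕ) : ℝ) ^ 2 ≤ M := by
    have h3 : ((⌊S.P ^ (2 * S.K)⌋₊ : ℕ) : ℝ) ≤ S.P ^ (2 * S.K) :=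
      Nat.floor_le (pow_nonneg Par.P_pos.le _)
    calc ((⌊S.P ^ (2 * S.K)⌋₊ : ℕ) : ℝ) ^ 2 ≤ (S.P ^ (2 * S.K)) ^ 2 :=
          pow_le_pow_left₀ (Nat.cast_nonneg _) h3 2
      _ = S.P ^ (4 * S.K) := by rw [← pow_mul]; congr 1; ring
      _ ≤ S.P ^ (100 * S.K) := pow_le_pow_right₀ hP (by omega)
      _ ≤ M := hR
  set W := ∑ p ∈ S.Q, 1 / (p : ℝ) with hWd
  have hW0 : 0 ≤ W := Finset.sum_nonneg fun p _ => by positivity
  have hW2 : W ^ 2 + W ≤ 4 * (S.K : ℝ) ^ 2 + 2 * S.K := by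
    have : W ^ 2 ≤ (2 * (S.K : ℝ)) ^ 2 := pow_le_pow_left₀ hW0 hW 2
    nlinarith
  have hsum : ((∑ p ∈ S.Q, (E.filter fun m => p ∣ m).card : ℕ) : ℝ) =
      ∑ p ∈ S.Q, (erp S lam t p θ φ : ℝ) := by
    push_cast
    exact Finset.sum_congr rfl fun p _ => by rw [h1 p]
  rw [hsum] at h2
  have h3 : (Yt : ℝ) * (W ^ 2 + W) + 2 * ((⌊S.P ^ (2 * S.K)⌋₊ : ℕ) : ℝ) ^ 2 ≤
      M * (4 * (S.K : ℝ) ^ 2 + 2 * S.K + 2) := by
    have h4 : (Yt : ℝ) * (W ^ 2 + W) ≤ M * (4 * (S.K : ℝ) ^ 2 + 2 * S.K) :=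
      mul_le_mul hYM hW2 (by positivity) hM0
    nlinarith
  have h4 : (∑ p ∈ S.Q, (erp S lam t p θ φ : ℝ)) ^ 2 ≤ (b * M) ^ 2 := by
    calc (∑ p ∈ S.Q, (erp S lam t p θ φ : ℝ)) ^ 2
        ≤ E.card * (Yt * (W ^ 2 + W) + 2 * ((⌊S.P ^ (2 * S.K)⌋₊ : ℕ) : ℝ) ^ 2) := h2
      _ ≤ (e1 * M) * (M * (4 * (S.K : ℝ) ^ 2 + 2 * S.K + 2)) :=
          mul_le_mul hEc h3 (by positivity) (by positivity)
      _ = (e1 * (4 * (S.K : ℝ) ^ 2 + 2 * S.K + 2)) * M ^ 2 := by ring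
      _ ≤ b ^ 2 * M ^ 2 := mul_le_mul_of_nonneg_right hbC (sq_nonneg M)
      _ = (b * M) ^ 2 := by ring
  exact (pow_le_pow_iff_left₀ (Finset.sum_nonneg fun p _ => Nat.cast_nonneg _)
    (mul_nonneg hb hM0) two_ne_zero).1 h4

open Classical in
theorem cnt_bad (hSBL : T_SBL) (hCTN : T_CTN) (S : Par) (hS : S.Ok) (lam : ℕ → ℝ) (Q : ℕ)
    (η e e1 δ c : ℝ) (Y : ℕ) (he : 0 ≤ e) (he1 : 0 < e1) (hee : 100 * e ≤ c * e1)
    (hδ : 400 * δ ≤ c) (hrho : S.rho = Y / (8 * S.x S.b)) (hY : 100 ≤ (Y : ℝ))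
    (hYx : 8 * (Y : ℝ) ≤ S.x S.a) (hL : 1 ≤ S.L) (hP : 100 ≤ S.P) (hN : 0 < S.N)
    (hr1 : S.rho ≤ 1) (hc : 0 < c) (hcX : 1 ≤ c * S.X)
    (hsum : ∑ n ∈ (Icc ⌊S.x S.a / 2⌋₊ (S.n S.b)).filter (fun n : ℕ => ¬ GW lam Q η e Y n),
      1 / (n : ℝ) ≤ 100 * δ * (S.N * S.h)) :
    S.cnt (fun t => ¬ GW lam Q η e1 ⌊S.rho * S.n t⌋₊ (S.n t)) ≤ c * S.N := by
  have hh := hS.hh
  have hr0 := hS.hr0
  have hK : (1 : ℝ) ≤ S.K := by exact_mod_cast hS.hK
  have hxa : 0 < S.x S.a := Par.x_pos _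
  have hab : S.a ≤ S.b := by
    have h1 : (0 : ℝ) < (S.b : ℝ) - S.a := hN
    have h2 : (S.a : ℝ) < S.b := by linarith
    exact_mod_cast h2.le
  have hxab : S.x S.a ≤ S.x S.b := Par.x_mono hh hab
  have hna1 : (S.n S.a : ℝ) ≤ S.x S.a := Nat.floor_le hxa.le
  have hna2 : S.x S.a - 1 < S.n S.a := by
    have := Nat.lt_floor_add_one (S.x S.a)
    unfold Par.n
    linarith
  have hnb1 : (S.n S.b : ℝ) ≤ S.x S.b := Nat.floor_le (Par.x_pos _).le
  have hnab : S.n S.a ≤ S.n S.b := Nat.floor_le_floor hxab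
  have hn1 : 1 ≤ S.n S.a := by
    have : (1 : ℝ) < S.n S.a := by linarith
    exact_mod_cast this.le
  set A := S.n S.a - 1 with hA
  set B := S.n S.b with hB
  have hAr : (A : ℝ) = S.n S.a - 1 := by
    rw [hA, Nat.cast_sub hn1]; simp
  have hA2 : S.x S.a / 2 ≤ A := by rw [hAr]; linarith
  have hA0 : (0 : ℝ) < A := by linarith
  have hrx : 100 ≤ S.rho * S.x S.a := by
    have h1 : S.P ^ 1 ≤ S.P ^ (100 * S.K) :=
      pow_le_pow_right₀ (by linarith) (by have := hS.hK; omega)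
    rw [pow_one] at h1
    have h2 := hS.hra
    linarith
  have h1 := hSBL lam Q η e e1 S.rho A B Y he he1 hr0 hr1
    (by
      have : (4 : ℝ) ≤ Y := by linarith
      exact_mod_cast this)
    (by
      have : (4 * Y : ℝ) ≤ A := by rw [hAr]; linarith
      exact_mod_cast this)
    (by omega)
    (by
      have h3 : S.x S.a / 4 ≤ (A : ℝ) - Y := by rw [hAr]; linarith
      have h4 := mul_le_mul_of_nonneg_left h3 hr0.le
      linarith)
    (by
      have h3 : (B : ℝ) + Y ≤ 2 * S.x S.b := by linarith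
      have hxb : 0 < S.x S.b := Par.x_pos _
      calc 4 * (S.rho * ((B : ℝ) + Y)) ≤ 4 * (S.rho * (2 * S.x S.b)) := by
            have := mul_le_mul_of_nonneg_left h3 hr0.le
            linarith
        _ = Y := by rw [hrho]; field_simp; ring)
  have h2 : ∑ n ∈ (Ioc (A - Y) B).filter (fun n : ℕ => ¬ GW lam Q η e Y n), 1 / (n : ℝ) ≤
      100 * δ * (S.N * S.h) := by
    refine le_trans (Finset.sum_le_sum_of_subset_of_nonneg ?_ ?_) hsum
    · intro m hm
      rw [Finset.mem_filter, Finset.mem_Ioc] at hm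
      rw [Finset.mem_filter, Finset.mem_Icc]
      refine ⟨⟨?_, hm.1.2⟩, hm.2⟩
      have h3 : ⌊S.x S.a / 2⌋₊ ≤ A - Y + 1 := by
        have h4 : (⌊S.x S.a / 2⌋₊ : ℝ) ≤ S.x S.a / 2 := Nat.floor_le (by positivity)
        have h5 : ((⌊S.x S.a / 2⌋₊ + Y : ℕ) : ℝ) ≤ A := by
          push_cast; rw [hAr]; linarith
        have h6 : ⌊S.x S.a / 2⌋₊ + Y ≤ A := by exact_mod_cast h5
        omega
      omega
    · intro m _ _
      positivity
  have h3 : Real.log ((B : ℝ) / A) ≤ 1 + S.N * S.h := by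
    have hBpos : (0 : ℝ) < B := by
      have : (1 : ℝ) ≤ B := by exact_mod_cast hn1.trans hnab
      linarith
    have hxb : S.x S.b = S.x S.a * Real.exp (S.N * S.h) := by
      unfold Par.x Par.N
      rw [← Real.exp_add]
      congr 1
      ring
    have h4 : (B : ℝ) / A ≤ Real.exp (1 + S.N * S.h) := by
      rw [div_le_iff₀ hA0, Real.exp_add]
      have h5 : (2 : ℝ) ≤ Real.exp 1 := by
        have := Real.add_one_le_exp (1 : ℝ); linarith
      have h6 : S.x S.a ≤ Real.exp 1 * A := by nlinarith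
      calc (B : ℝ) ≤ S.x S.b := hnb1
        _ = S.x S.a * Real.exp (S.N * S.h) := hxb
        _ ≤ (Real.exp 1 * A) * Real.exp (S.N * S.h) :=
            mul_le_mul_of_nonneg_right h6 (Real.exp_pos _).le
        _ = Real.exp 1 * Real.exp (S.N * S.h) * A := by ring
    calc Real.log ((B : ℝ) / A) ≤ Real.log (Real.exp (1 + S.N * S.h)) :=
          Real.log_le_log (div_pos hBpos hA0) h4
      _ = 1 + S.N * S.h := Real.log_exp _
  have hNh : 12 ≤ S.N * S.h := by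
    have h4 := hS.hI1
    have h5 : (1 : ℝ) ≤ S.K * S.L := by nlinarith
    nlinarith
  have h4 : 12 * (e / e1) * (1 + Real.log ((B : ℝ) / A)) ≤ c * 24 / 100 * (S.N * S.h) := by
    have h5 : e / e1 ≤ c / 100 := by
      rw [div_le_div_iff₀ he1 (by norm_num)]; linarith
    have h6 : 1 + Real.log ((B : ℝ) / A) ≤ 2 * (S.N * S.h) := by linarith
    have h7 : 0 ≤ e / e1 := div_nonneg he he1.le
    calc 12 * (e / e1) * (1 + Real.log ((B : ℝ) / A)) ≤ 12 * (e / e1) * (2 * (S.N * S.h)) :=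
          mul_le_mul_of_nonneg_left h6 (by positivity)
      _ ≤ 12 * (c / 100) * (2 * (S.N * S.h)) :=
          mul_le_mul_of_nonneg_right (by linarith) (by linarith)
      _ = c * 24 / 100 * (S.N * S.h) := by ring
  have h5 : S.cnt (fun t => ¬ GW lam Q η e1 ⌊S.rho * S.n t⌋₊ (S.n t)) ≤ 1 / S.h *
      ∑ n ∈ (Ioc A B).filter (fun n : ℕ => ¬ GW lam Q η e1 ⌊S.rho * n⌋₊ n), 1 / (n : ℝ) +
        2 * S.X := by
    have h5' := hCTN S (fun n : ℕ => ¬ GW lam Q η e1 ⌊S.rho * n⌋₊ n) hS (by linarith)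
    refine h5'.trans (le_of_eq ?_)
    congr 2
    refine Finset.sum_congr ?_ fun _ _ => rfl
    ext m
    simp only [Finset.mem_filter, Finset.mem_Icc, Finset.mem_Ioc]
    constructor
    · rintro ⟨h6, h7⟩
      exact ⟨by omega, h7⟩
    · rintro ⟨h6, h7⟩
      exact ⟨by omega, h7⟩
  have h7 : ∑ n ∈ (Ioc A B).filter (fun n : ℕ => ¬ GW lam Q η e1 ⌊S.rho * n⌋₊ n), 1 / (n : ℝ) ≤
      c * 49 / 100 * (S.N * S.h) := by
    have h8 : 100 * δ * (S.N * S.h) ≤ c / 4 * (S.N * S.h) :=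
      mul_le_mul_of_nonneg_right (by linarith) (by linarith)
    linarith
  have h8 : 1 / S.h * ∑ n ∈ (Ioc A B).filter (fun n : ℕ => ¬ GW lam Q η e1 ⌊S.rho * n⌋₊ n),
      1 / (n : ℝ) ≤ c * 49 / 100 * S.N := by
    calc 1 / S.h * ∑ n ∈ (Ioc A B).filter (fun n : ℕ => ¬ GW lam Q η e1 ⌊S.rho * n⌋₊ n),
          1 / (n : ℝ) ≤ 1 / S.h * (c * 49 / 100 * (S.N * S.h)) :=
          mul_le_mul_of_nonneg_left h7 (by positivity)
      _ = c * 49 / 100 * S.N := by field_simp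
  have h9 : 2 * S.X ≤ c / 2 * S.N := by
    have hX1 := hS.hX
    have h10 : 12 * S.X ^ 5 ≤ S.N := by
      have h11 : 12 * (S.h * S.X ^ 5) ≤ S.N * S.h := by
        have := hS.hX5
        linarith
      have h12 : S.h * (12 * S.X ^ 5) ≤ S.h * S.N := by linarith
      exact le_of_mul_le_mul_left h12 hh
    have h11 : S.X ≤ c * S.X ^ 5 := by
      have h12 : (1 : ℝ) ≤ S.X ^ 3 := one_le_pow₀ hX1
      calc S.X = 1 * (1 * S.X) := by ring
        _ ≤ (c * S.X) * (S.X ^ 3 * S.X) :=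
            mul_le_mul hcX (mul_le_mul_of_nonneg_right h12 (by linarith)) (by positivity)
              (by positivity)
        _ = c * S.X ^ 5 := by ring
    have h12 := mul_le_mul_of_nonneg_left h10 hc.le
    linarith
  calc S.cnt (fun t => ¬ GW lam Q η e1 ⌊S.rho * S.n t⌋₊ (S.n t))
      ≤ _ := h5
    _ ≤ c * S.N := by
      have h10 := mul_pos hc hN
      linarith

open Classical in
theorem pf_WIN (hSBL : T_SBL) (hCTN : T_CTN) (hSTR : T_STR) (hMOM : T_MOM) (hSHW : T_SHW)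
    (hEDW : T_EDW) (hWTS : T_WTS) (hSIZ : T_SIZ) : T_WIN := by
  intro K ε ε₀ hK hε hε₀
  obtain ⟨Qs, hQs⟩ := hSHW ε₀ hε₀
  obtain ⟨Qd, hQd⟩ := hEDW K ε₀ hK hε₀
  have hK1 : (1 : ℝ) ≤ K := by exact_mod_cast hK
  set c := ε / (10 * (1 + 2 * (K : ℝ))) with hc
  have hc0 : 0 < c := by positivity
  have hcε : c * (10 * (1 + 2 * (K : ℝ))) = ε := by
    rw [hc]; field_simp
  refine ⟨c / 400, max 3 (max Qs Qd), by positivity, fun η hη => ?_⟩
  obtain ⟨es, Xs, hes, hs⟩ := hQs η hη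
  obtain ⟨ed, Xd, hed, hd⟩ := hQd η hη
  set CK := 4 * (K : ℝ) ^ 2 + 2 * K + 2 with hCK
  have hCK0 : 0 < CK := by positivity
  set e1 := min es (min (ed / 4) (ε ^ 2 * ed ^ 2 / (16 * CK))) with he1
  have he10 : 0 < e1 := by
    rw [he1]
    exact lt_min hes (lt_min (by positivity) (by positivity))
  have he1s : e1 ≤ es := min_le_left _ _
  have he1d : e1 ≤ ed / 4 := (min_le_right _ _).trans (min_le_left _ _)
  have he1c : e1 * CK ≤ (ε / 4 * ed) ^ 2 := by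
    have h1 : e1 ≤ ε ^ 2 * ed ^ 2 / (16 * CK) := (min_le_right _ _).trans (min_le_right _ _)
    rw [le_div_iff₀ (by positivity)] at h1
    nlinarith
  obtain ⟨Xi, hsiz⟩ := hSIZ
  obtain ⟨Xw, hw⟩ := hWTS.2.1 (2 * K) (by omega)
  obtain ⟨Xr, hstr⟩ := hSTR K hK
  refine ⟨e1 * c / 100, max (max (max Xs Xd) (max Xi Xw)) (max Xr (max (1 / c) (Real.exp 1))),
    by positivity, ?_⟩
  intro X Y lam hX hY1 hY2 hlam hsum
  have hXs : Xs ≤ X := (le_max_left _ _).trans ((le_max_left _ _).trans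
    ((le_max_left _ _).trans hX))
  have hXd : Xd ≤ X := (le_max_right _ _).trans ((le_max_left _ _).trans
    ((le_max_left _ _).trans hX))
  have hXi : Xi ≤ X := (le_max_left _ _).trans ((le_max_right _ _).trans
    ((le_max_left _ _).trans hX))
  have hXw : Xw ≤ X := (le_max_right _ _).trans ((le_max_right _ _).trans
    ((le_max_left _ _).trans hX))
  have hXr : Xr ≤ X := (le_max_left _ _).trans ((le_max_right _ _).trans hX)
  have hXc : 1 / c ≤ X := (le_max_left _ _).trans ((le_max_right _ _).trans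
    ((le_max_right _ _).trans hX))
  have hXe : Real.exp 1 ≤ X := (le_max_right _ _).trans ((le_max_right _ _).trans
    ((le_max_right _ _).trans hX))
  have hX0 : 0 < X := (Real.exp_pos 1).trans_le hXe
  have hlog : 1 ≤ Real.log X := by
    rw [Real.le_log_iff_exp_le hX0]; exact hXe
  obtain ⟨S, hOk, hSK, hSX, hrho, hxa, hsum2⟩ := hstr X (c / 400) Y
    (fun n : ℕ => ¬ GW lam (max 3 (max Qs Qd)) η (e1 * c / 100) Y n) hXr (by positivity)
    hY1 hY2 (le_trans (le_of_eq (Finset.sum_congr (by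
      ext m; simp only [Finset.mem_filter]) fun _ _ => rfl)) hsum)
  obtain ⟨hL, hP, -, hr100, -, -, -, -, hI, -, -, hN, hcard⟩ := hsiz S hOk (by rw [hSX]; exact hXi)
  set Q := max 3 (max Qs Qd) with hQ
  have hQ3 : 3 ≤ Q := le_max_left _ _
  have hQQs : Qs ≤ Q := (le_max_left _ _).trans (le_max_right _ _)
  have hQQd : Qd ≤ Q := (le_max_right _ _).trans (le_max_right _ _)
  have hPY : S.P ≤ Y := by
    refine le_trans ?_ hY1
    unfold Par.P PP
    rw [hSX]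
    exact Real.exp_le_exp.2 (Real.rpow_le_rpow_of_exponent_le hlog (by norm_num))
  have hY100 : (100 : ℝ) ≤ Y := hP.trans hPY
  have hYx : 8 * (Y : ℝ) ≤ S.x S.a := by
    have h1 : X ^ (1 / 2 : ℝ) = X ^ (1 / 4 : ℝ) * X ^ (1 / 4 : ℝ) := by
      rw [← Real.rpow_add hX0]; norm_num
    have h2 : (Y : ℝ) * Y ≤ X ^ (1 / 4 : ℝ) * X ^ (1 / 4 : ℝ) :=
      mul_le_mul hY2 hY2 (Nat.cast_nonneg _) (by positivity)
    nlinarith
  have hr0 := hOk.hr0
  have hbad := cnt_bad hSBL hCTN S hOk lam Q η (e1 * c / 100) e1 (c / 400) c Y (by positivity)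
    he10 (by linarith) (by linarith) hrho hY100 hYx hL hP hN (by linarith) hc0
    (by rw [hSX]; rw [div_le_iff₀ hc0] at hXc; linarith)
    (le_trans (le_of_eq (Finset.sum_congr (by
      ext m; simp only [Finset.mem_filter]) fun _ _ => rfl)) hsum2)
  set bad : ℤ → Prop := fun t => ¬ GW lam Q η e1 ⌊S.rho * S.n t⌋₊ (S.n t) with hbadd
  have hch : ∀ t : ℤ, ∃ q : ℝ × ℝ, ¬ bad t →
      GD lam Q η e1 ⌊S.rho * S.n t⌋₊ (S.n t) q.1 q.2 := by
    intro t
    by_cases h : bad t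
    · exact ⟨(0, 0), fun h' => absurd h h'⟩
    · have h' : GW lam Q η e1 ⌊S.rho * S.n t⌋₊ (S.n t) := not_not.1 h
      obtain ⟨θ, φ, h2⟩ := h'
      exact ⟨(θ, φ), fun _ => h2⟩
  choose f hf using hch
  refine ⟨S, fun t => (f t).1, fun t => (f t).2, hOk, hSK, hSX, ?_⟩
  have hcN : 0 < c * S.N := mul_pos hc0 hN
  have hW : ∑ p ∈ S.Q, 1 / (p : ℝ) ≤ 2 * K := by
    have h1 := hw X hXw
    unfold Par.Q Par.P
    rw [hSX, hSK]
    exact_mod_cast h1
  have hW0 : 0 ≤ ∑ p ∈ S.Q, 1 / (p : ℝ) := Finset.sum_nonneg fun p _ => by positivity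
  have hεN : c * S.N * (10 * (1 + 2 * (K : ℝ))) = ε * S.N := by rw [← hcε]; ring
  have hcε10 : 10 * (c * S.N) ≤ ε * S.N := by
    rw [← hεN]
    have : (1 : ℝ) ≤ 1 + 2 * K := by linarith
    nlinarith
  have hsh : ∀ v : ℤ, S.cnt (fun t => t + v ∈ S.I ∧ bad (t + v)) ≤ c * S.N :=
    fun v => (Par.cnt_shift bad v).trans hbad
  refine ⟨?_, ?_, ?_, ?_⟩
  · -- generic frequencies
    refine (Par.cnt_mono (F := bad) fun t _ h => ?_).trans (hbad.trans (by linarith))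
    rcases Classical.em (bad t) with hb | hb
    · exact hb
    exfalso
    have h1 := (hf t hb).1
    apply h
    refine ⟨?_, ?_, ?_⟩
    · have := h1 1 le_rfl (by omega)
      simpa using this
    · have := h1 2 (by norm_num) (by omega)
      exact_mod_cast this
    · have := h1 3 (by norm_num) hQ3
      exact_mod_cast this
  · -- small shifts
    intro w hw1
    have h1 : S.cnt (fun t => t + (w : ℤ) ∈ S.I ∧
        ¬ ShR S ε₀ (fun t => (f t).1) (fun t => (f t).2) t w) ≤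
        S.cnt bad + S.cnt (fun t => t + (w : ℤ) ∈ S.I ∧ bad (t + w)) := by
      apply Par.cnt_le_add
      rintro t ht ⟨h2, h3⟩
      by_contra hcon
      push Not at hcon
      obtain ⟨h4, h5⟩ := hcon
      have h5' := h5 h2
      apply h3
      exact hs S lam t w _ _ _ _ hOk (by rw [hSX]; exact hXs) hlam ht h2 hw1
        (GD_mono hQQs he1s (hf t h4)) (GD_mono hQQs he1s (hf (t + w) h5'))
    have h2 := hsh w
    linarith
  · -- the edges
    have h1 : ∀ p ∈ S.Q, S.cnt (fun t => t - S.l p ∈ S.I ∧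
        ¬ EdR S ε₀ (fun t => (f t).1) (fun t => (f t).2) p t) ≤
        2 * (c * S.N) + S.cnt (fun t => ¬ bad t ∧
          ed * (S.rho * S.x t) / p < (erp S lam t p (f t).1 (f t).2 : ℝ)) := by
      intro p hp
      have h2 : S.cnt (fun t => t - S.l p ∈ S.I ∧
          ¬ EdR S ε₀ (fun t => (f t).1) (fun t => (f t).2) p t) ≤
          S.cnt (fun t => bad t ∨ (t + -S.l p ∈ S.I ∧ bad (t + -S.l p))) +
          S.cnt (fun t => ¬ bad t ∧
            ed * (S.rho * S.x t) / p < (erp S lam t p (f t).1 (f t).2 : ℝ)) := by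
        apply Par.cnt_le_add
        rintro t ht ⟨h2, h3⟩
        by_contra hcon
        push Not at hcon
        obtain ⟨⟨h4, h5⟩, h6⟩ := hcon
        have h2' : t + -S.l p ∈ S.I := by rw [← sub_eq_add_neg]; exact h2
        have h5' := h5 h2'
        rw [← sub_eq_add_neg] at h5'
        apply h3
        exact hd S lam t p _ _ _ _ hOk hSK (by rw [hSX]; exact hXd) hlam ht h2 (Or.inl hp)
          (h6 h4) (GD_mono hQQd (he1d.trans (by linarith)) (hf (t - S.l p) h5'))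
      have h3 := Par.cnt_or (S := S) bad (fun t => t + -S.l p ∈ S.I ∧ bad (t + -S.l p))
      have h4 := hsh (-S.l p)
      linarith
    have h2 : ∑ p ∈ S.Q, 1 / (p : ℝ) * S.cnt (fun t => ¬ bad t ∧
        ed * (S.rho * S.x t) / p < (erp S lam t p (f t).1 (f t).2 : ℝ)) ≤
        ε / 4 * S.I.card := by
      apply exch
      intro t ht
      by_cases hb : bad t
      · refine (Finset.sum_eq_zero fun p _ => ?_).le.trans (by positivity)
        rw [if_neg (fun h => h.1 hb), mul_zero]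
      · obtain ⟨hR, -, hn1, hn2⟩ := hI t ht
        have hM0 : 0 < S.rho * S.x t := mul_pos hr0 (Par.x_pos t)
        have h4 := sum_erp hMOM S lam Q η e1 t (f t).1 (f t).2 (by rw [hSK]; exact hW) (hf t hb)
          hR hn2 (by linarith) hr0 he10.le (ε / 4 * ed) (by positivity)
          (by rw [hSK]; exact he1c)
        refine le_trans (Finset.sum_le_sum
          (g := fun p => (erp S lam t p (f t).1 (f t).2 : ℝ) / (ed * (S.rho * S.x t)))
          fun p hp => ?_) ?_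
        · have hp0 : (0 : ℝ) < p := by exact_mod_cast (mem_Q hp).1.pos
          have hD : 0 < ed * (S.rho * S.x t) := mul_pos hed hM0
          split_ifs with h
          · have h5 := h.2.le
            rw [div_le_iff₀ hp0] at h5
            rw [mul_one, div_le_div_iff₀ hp0 hD]
            linarith
          · rw [mul_zero]; positivity
        calc ∑ p ∈ S.Q, (erp S lam t p (f t).1 (f t).2 : ℝ) / (ed * (S.rho * S.x t))
            = (∑ p ∈ S.Q, (erp S lam t p (f t).1 (f t).2 : ℝ)) / (ed * (S.rho * S.x t)) := by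
              rw [Finset.sum_div]
          _ ≤ (ε / 4 * ed * (S.rho * S.x t)) / (ed * (S.rho * S.x t)) :=
              div_le_div_of_nonneg_right h4 (by positivity)
          _ = ε / 4 := by
              have hxt : S.x t ≠ 0 := (Par.x_pos t).ne'
              have hr0' : S.rho ≠ 0 := hr0.ne'
              have hed' : ed ≠ 0 := hed.ne'
              field_simp
    rw [hcard] at h2
    calc ∑ p ∈ S.Q, 1 / (p : ℝ) * S.cnt (fun t => t - S.l p ∈ S.I ∧
          ¬ EdR S ε₀ (fun t => (f t).1) (fun t => (f t).2) p t)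
        ≤ ∑ p ∈ S.Q, 1 / (p : ℝ) * (2 * (c * S.N) + S.cnt (fun t => ¬ bad t ∧
          ed * (S.rho * S.x t) / p < (erp S lam t p (f t).1 (f t).2 : ℝ))) :=
          Finset.sum_le_sum fun p hp => mul_le_mul_of_nonneg_left (h1 p hp) (by positivity)
      _ = (∑ p ∈ S.Q, 1 / (p : ℝ)) * (2 * (c * S.N)) +
          ∑ p ∈ S.Q, 1 / (p : ℝ) * S.cnt (fun t => ¬ bad t ∧
            ed * (S.rho * S.x t) / p < (erp S lam t p (f t).1 (f t).2 : ℝ)) := by
          rw [Finset.sum_mul, ← Finset.sum_add_distrib]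
          exact Finset.sum_congr rfl fun p _ => by ring
      _ ≤ (2 * K) * (2 * (c * S.N)) + ε / 4 * S.N :=
          add_le_add (mul_le_mul_of_nonneg_right hW (by positivity)) h2
      _ ≤ ε * S.N := by nlinarith
  · -- the prime number two
    have h1 : S.cnt (fun t => t - S.l 2 ∈ S.I ∧
        ¬ EdR S ε₀ (fun t => (f t).1) (fun t => (f t).2) 2 t) ≤
        S.cnt bad + S.cnt (fun t => t + -S.l 2 ∈ S.I ∧ bad (t + -S.l 2)) := by
      apply Par.cnt_le_add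
      rintro t ht ⟨h2, h3⟩
      by_contra hcon
      push Not at hcon
      obtain ⟨h4, h5⟩ := hcon
      have h2' : t + -S.l 2 ∈ S.I := by rw [← sub_eq_add_neg]; exact h2
      have h5' := h5 h2'
      rw [← sub_eq_add_neg] at h5'
      obtain ⟨hR, -, hn1, hn2⟩ := hI t ht
      have hM0 : 0 < S.rho * S.x t := mul_pos hr0 (Par.x_pos t)
      apply h3
      refine hd S lam t 2 _ _ _ _ hOk hSK (by rw [hSX]; exact hXd) hlam ht h2 (Or.inr rfl)
        ?_ (GD_mono hQQd (he1d.trans (by linarith)) (hf (t - S.l 2) h5'))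
      have h6 : (erp S lam t 2 (f t).1 (f t).2 : ℝ) ≤ e1 * ⌊S.rho * S.n t⌋₊ := by
        refine le_trans ?_ (hf t h4).2
        unfold erp
        exact_mod_cast Finset.card_le_card (fun m hm => by
          rw [Finset.mem_filter] at hm ⊢
          exact ⟨hm.1, hm.2.2⟩)
      have h7 : ((⌊S.rho * S.n t⌋₊ : ℕ) : ℝ) ≤ S.rho * S.x t := by
        refine (Nat.floor_le (mul_nonneg hr0.le (Nat.cast_nonneg _))).trans ?_
        exact mul_le_mul_of_nonneg_left hn2 hr0.le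
      have h8 : e1 * ((⌊S.rho * S.n t⌋₊ : ℕ) : ℝ) ≤ ed / 4 * (S.rho * S.x t) :=
        mul_le_mul he1d h7 (Nat.cast_nonneg _) (by positivity)
      have h9 : ed * (S.rho * S.x t) / ((2 : ℕ) : ℝ) = 2 * (ed / 4 * (S.rho * S.x t)) := by
        push_cast; ring
      rw [h9]
      have h10 : 0 < ed / 4 * (S.rho * S.x t) := by positivity
      linarith
    have h2 := hsh (-S.l 2)
    linarith

end Pool.Agent.H21.N4D.WN
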